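import Pool.Agent.Lib.MP_019b27_al.Core

namespace Pool.Agent.Results.MP_019b27_al.NoCompletion

universe u v

/-- Lattice terms in the variables `x 0, x 1, ...`. -/
inductive LatTerm : Type
  | var : ℕ → LatTerm
  | join : LatTerm → LatTerm → LatTerm
  | meet : LatTerm → LatTerm → LatTerm

/-- The value of a lattice term in a lattice under an assignment of the variables. -/
def LatTerm.value {L : Type u} [Lattice L] (x : ℕ → L) : LatTerm → L
  | .var n => x n
  | .join s t => s.value x ⊔ t.value x
  | .meet s t => s.value x ⊓ t.value x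

/-- A quasi-identity: a finite list of premises `s = t` and one conclusion `s = t`. -/
structure QuasiIdentity : Type where
  premises : List (LatTerm × LatTerm)
  conclusion : LatTerm × LatTerm

/-- The quasi-identity holds in `L`. -/
def QuasiIdentity.HoldsIn (q : QuasiIdentity) (L : Type u) [Lattice L] : Prop :=
  ∀ x : ℕ → L, (∀ p ∈ q.premises, p.1.value x = p.2.value x) →
    q.conclusion.1.value x = q.conclusion.2.value x

/-- `K` lies in the quasivariety generated by `L`. -/
def InQuasivarietyOf (K : Type u) [Lattice K] (L : Type v) [Lattice L] : Prop :=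
  ∀ q : QuasiIdentity, q.HoldsIn L → q.HoldsIn K

open Pool.Agent.Lib.MP_019b27_al LatTerm in
theorem result : ∃ (L : Type) (_ : Lattice L), Nonempty L ∧ IsModularLattice L ∧
    ∀ (K : Type u) [CompleteLattice K], InQuasivarietyOf K L →
      ∀ f : LatticeHom L K, ¬ Function.Injective f := by
  refine ⟨L0, inferInstance, ⟨((fun _ => BB 0 : ℕ → L1) : L0)⟩, modular_L0, ?_⟩
  intro K _ hK f
  have hmod : IsModularLattice K := by
    have := hK ⟨[(join (var 0) (var 2), var 2)],
      (meet (join (var 0) (var 1)) (var 2), join (var 0) (meet (var 1) (var 2)))⟩ (by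
        intro x hx
        have := modular_L0
        have h : x 0 ⊔ x 2 = x 2 := hx _ (List.mem_singleton.2 rfl)
        exact sup_inf_assoc_of_le (x 1) (sup_eq_right.1 h))
    constructor
    intro a b c hac
    refine le_of_eq (this (fun n => if n = 0 then a else if n = 1 then b else c) ?_)
    intro p hp
    rw [List.mem_singleton.1 hp]
    exact sup_eq_right.2 hac
  have hm4 : M4Free K := by
    let prs : List (Fin 4 × Fin 4) := (List.finRange 4 ×ˢ List.finRange 4).filter (fun p => p.1 ≠ p.2)
    have hprs : ∀ j l : Fin 4, (j, l) ∈ prs ↔ j ≠ l := by decide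
    have := hK ⟨prs.map (fun p => (meet (var p.1) (var p.2), var 4)) ++
        prs.map (fun p => (join (var p.1) (var p.2), var 5)), (var 4, var 5)⟩ (by
        intro x hx
        refine m4free_L0 (fun j => x j) (x 4) (x 5) ?_ ?_
        · intro j l hjl
          exact hx _ (List.mem_append_left _ (List.mem_map.2 ⟨(j, l), (hprs j l).2 hjl, rfl⟩))
        · intro j l hjl
          exact hx _ (List.mem_append_right _ (List.mem_map.2 ⟨(j, l), (hprs j l).2 hjl, rfl⟩)))
    intro a o i h1 h2
    refine this (fun n => if h : n < 4 then a ⟨n, h⟩ else if n = 4 then o else i) ?_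
    intro p hp
    rcases List.mem_append.1 hp with hp | hp
    · obtain ⟨⟨j, l⟩, hjl, rfl⟩ := List.mem_map.1 hp
      simpa [LatTerm.value] using h1 j l ((hprs j l).1 hjl)
    · obtain ⟨⟨j, l⟩, hjl, rfl⟩ := List.mem_map.1 hp
      simpa [LatTerm.value] using h2 j l ((hprs j l).1 hjl)
  exact no_embedding hm4 f

end Pool.Agent.Results.MP_019b27_al.NoCompletion
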